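import Pool.Agent.E870.CK.Factor

/-!
# Chow-Kunneth decompositions from algebraic correspondences

`𝒱` is a class of smooth projective geometrically irreducible varieties over the field `k` closed
under products (for example all of them), `C` the Chow groups with rational coefficients (in the
form of their formal properties, `IsChowProj`) and `H` a Weil cohomology theory (`IsWeilProj`).
A correspondence is algebraic if it is annihilated by a nonzero polynomial with rational coefficients.

**Theorem.** The following are equivalent: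
* `X` has a Chow-Kunneth decomposition;
* the Kunneth projectors of `X` lift to a ring of algebraic correspondences of degree zero;
* there are an algebraic correspondence `D` of degree zero and pairwise coprime polynomials `Q m`
  such that `Q m (D)` acts as zero on `H^m(X)`;
* the Kunneth projectors lift to idempotents `e i` with `e j ∘ e i = 0` for `i < j`.

If `h(X)` is a direct factor of `h(Y)` and the projector and lifts of the Kunneth projectors of `Y`
lie in one ring of algebraic correspondences of `Y`, then `X` has a Chow-Kunneth decomposition.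

## Proof

If `x` is algebraic and acts as an idempotent, then there is an idempotent polynomial in `x` which
acts in the same way; apply this successively to the compressions `f ∘ κ n ∘ f`, where `1 - f` is the
sum of the idempotents already constructed. The homologically trivial complement is added to `π 0`.
For a direct factor, the ring is compressed; the compression consists of algebraic elements.
-/

open CategoryTheory AlgebraicGeometry

set_option autoImplicit false

universe u v w

namespace Pool.Agent.Results.MP_524776_ag.AlgebraicLifts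

open Pool.Agent.H914 Pool.Agent.H914.VarClass.Obj Pool.Agent.W492.BB Pool.Agent.W550.Corr
  Pool.Agent.TH133 Pool.Agent.E870.CK

/-- Criteria for the existence of a Chow-Kunneth decomposition. -/
theorem result {k : Type u} [Field k] {𝒱 : VarClass k} (C : TheoryData.{u, v, 0} 𝒱 ℚ)
    [IsChowProj C] {K : Type w} [Field K] (H : WeilTheoryData.{u, v, w} C K) [IsWeilProj H]
    (X : 𝒱.Obj) :
    ((∃ π, IsCK H X π) ↔ ∃ A : Submodule ℚ (C.A (X.prod X)), IsAlgRing C A ∧
      ∀ i : ℕ, ∃ κ ∈ A, LiftsKunneth H i κ) ∧
    ((∃ π, IsCK H X π) ↔ ∃ D : C.A (X.prod X), C.Deg X.dim D ∧ IsAlg C D ∧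
      ∃ Q : ℕ → Polynomial ℚ, (∀ i j, i ≠ j → IsCoprime (Q i) (Q j)) ∧
        ∀ (m : ℕ) (a : H.A X), H.Deg m a → H.act (H.cl (evalCor C (Q m) D)) a = 0) ∧
    ((∃ π, IsCK H X π) ↔ ∃ e : ℕ → C.A (X.prod X),
      (∀ i, LiftsKunneth H i (e i) ∧ C.comp (e i) (e i) = e i) ∧
        ∀ i j, i < j → C.comp (e i) (e j) = 0) ∧
    (∀ (Y : 𝒱.Obj) (a : C.A (X.prod Y)) (b : C.A (Y.prod X)), C.Deg X.dim a → C.Deg Y.dim b →
      C.comp a b = dg C X → ∀ B : Submodule ℚ (C.A (Y.prod Y)), IsAlgRing C B →
      C.comp b a ∈ B → (∀ i : ℕ, ∃ κ ∈ B, LiftsKunneth H i κ) → ∃ π, IsCK H X π) := by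
  refine ⟨⟨fun ⟨π, hπ⟩ => ?_, fun ⟨A, hA, h⟩ => ck_of_algRing hA h⟩, ⟨fun ⟨π, hπ⟩ => ?_,
    fun ⟨D, hD, hDa, Q, hQ, h⟩ => ck_of_op hD hDa hQ h⟩, ⟨fun ⟨π, hπ⟩ => ?_,
    fun ⟨e, he, hs⟩ => ck_of_semi he hs⟩,
    fun Y a b ha hb hab B hB hba h => ck_of_factor ha hb hab hB hba h⟩
  · obtain ⟨A, hA, h⟩ := algRing_of_ck hπ
    exact ⟨A, hA, fun i => ⟨π i, h i, lifts_of_ck hπ i⟩⟩
  · obtain ⟨D, hD, hDa, -, Q, hQ, h⟩ := op_of_ck hπ
    exact ⟨D, hD, hDa, Q, hQ, h⟩
  · exact ⟨π, fun i => ⟨lifts_of_ck hπ i, hπ.idem i⟩, fun i j hij => hπ.orth i j hij.ne⟩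

end Pool.Agent.Results.MP_524776_ag.AlgebraicLifts
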